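import Pool.Agent.Helper22.TB.Goals

/-!
# Project TB (MP_74f661_nt), packet HCV: `b = τ * h` and the Euler product
-/

set_option autoImplicit false

open Finset Filter Topology
open Pool.Agent.Helper22.TB
open scoped Classical

namespace Pool.Agent.Helper88.TB

open ArithmeticFunction

/-- the function `b` -/
noncomputable def bf : ArithmeticFunction ℝ :=
  ⟨bq, by
    unfold bq
    rw [if_neg]
    rintro ⟨h, -⟩
    exact not_squarefree_zero h⟩

theorem bf_apply (n : ℕ) : bf n = bq n := rfl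

theorem bq_one : bq 1 = 1 := by
  unfold bq
  rw [if_pos ⟨squarefree_one, by norm_num⟩]
  unfold gq
  simp

theorem SF6_mul {m n : ℕ} (h : Nat.Coprime m n) : SF6 (m * n) ↔ SF6 m ∧ SF6 n := by
  unfold SF6
  rw [Nat.squarefree_mul h, Nat.coprime_mul_iff_left]
  tauto

theorem bf_mul : IsMultiplicative bf := by
  refine ⟨bq_one, ?_⟩
  intro m n h
  rw [bf_apply, bf_apply, bf_apply]
  unfold bq
  by_cases h1 : SF6 m ∧ SF6 n
  · rw [if_pos ((SF6_mul h).2 h1), if_pos h1.1, if_pos h1.2]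
    unfold gq
    rw [Nat.Coprime.primeFactors_mul h, Finset.prod_union h.disjoint_primeFactors]
    push_cast
    ring
  · rw [if_neg (fun h2 => h1 ((SF6_mul h).1 h2))]
    by_cases h2 : SF6 m
    · rw [if_neg (fun h3 => h1 ⟨h2, h3⟩), mul_zero]
    · rw [if_neg h2, zero_mul]

theorem bf_pow {p : ℕ} (hp : p.Prime) (i : ℕ) (hi : 2 ≤ i) : bf (p ^ i) = 0 := by
  rw [bf_apply]
  unfold bq
  rw [if_neg]
  rintro ⟨h, -⟩
  have h2 : p * p ∣ p ^ i := by
    rw [← pow_two]
    exact pow_dvd_pow p hi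
  exact hp.one_lt.ne' (Nat.isUnit_iff.1 (h p h2))

/-- the values of `b` at the primes -/
theorem bf_prime {p : ℕ} (hp : p.Prime) :
    0 ≤ bf p ∧ bf p ≤ 10 / 3 ∧ |bf p - 2| ≤ 10 / p := by
  have hp0 : (0 : ℝ) < p := by exact_mod_cast hp.pos
  rw [bf_apply]
  unfold bq
  by_cases h : SF6 p
  · rw [if_pos h]
    have h5 : 5 ≤ p := by
      have h2 := hp.two_le
      have h6 : Nat.Coprime p 6 := h.2
      by_contra hc
      have : p = 2 ∨ p = 3 ∨ p = 4 := by omega
      rcases this with rfl | rfl | rfl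
      · exact absurd h6 (by norm_num)
      · exact absurd h6 (by norm_num)
      · exact absurd hp (by norm_num)
    have h5' : (5 : ℝ) ≤ p := by exact_mod_cast h5
    unfold gq
    rw [hp.primeFactors, Finset.prod_singleton]
    have h3 : (0 : ℝ) < p - 2 := by linarith
    refine ⟨by positivity, ?_, ?_⟩
    · rw [← mul_div_assoc, div_le_div_iff₀ h3 (by norm_num)]
      linarith
    · have e : (p : ℝ) * (2 / (p - 2)) - 2 = 4 / (p - 2) := by
        field_simp
        ring
      rw [e, abs_of_nonneg (by positivity), div_le_div_iff₀ h3 hp0]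
      linarith
  · rw [if_neg h]
    refine ⟨le_rfl, by norm_num, ?_⟩
    have h3 : p ≤ 3 := by
      by_contra hc
      apply h
      refine ⟨hp.squarefree, ?_⟩
      have h4 : Nat.Coprime p 2 :=
        (Nat.coprime_primes hp Nat.prime_two).2 (by omega)
      have h5 : Nat.Coprime p 3 :=
        (Nat.coprime_primes hp Nat.prime_three).2 (by omega)
      have := Nat.Coprime.mul_right h4 h5
      exact this
    have h3' : (p : ℝ) ≤ 3 := by exact_mod_cast h3
    rw [zero_sub, abs_neg, abs_of_pos (by norm_num : (0 : ℝ) < 2), le_div_iff₀ hp0]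
    linarith

/-- the Moebius function with real values -/
noncomputable def mu : ArithmeticFunction ℝ := ((moebius : ArithmeticFunction ℤ) : ArithmeticFunction ℝ)

theorem mu_mul : IsMultiplicative mu := isMultiplicative_moebius.intCast

theorem mu_prime {p : ℕ} (hp : p.Prime) : mu p = -1 := by
  unfold mu
  rw [intCoe_apply, moebius_apply_prime hp]
  norm_num

theorem mu_pow {p : ℕ} (hp : p.Prime) (i : ℕ) (hi : 2 ≤ i) : mu (p ^ i) = 0 := by
  unfold mu
  rw [intCoe_apply, moebius_apply_prime_pow hp (by omega), if_neg (by omega)]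
  norm_num

/-- convolution at a prime power -/
theorem conv_pow (f g : ArithmeticFunction ℝ) {p : ℕ} (hp : p.Prime)
    (hf : ∀ i, 2 ≤ i → f (p ^ i) = 0) (k : ℕ) :
    (f * g) (p ^ (k + 1)) = f 1 * g (p ^ (k + 1)) + f p * g (p ^ k) := by
  rw [ArithmeticFunction.mul_apply, Nat.sum_divisorsAntidiagonal (fun a b => f a * g b),
    Nat.divisors_prime_pow hp, Finset.sum_map]
  simp only [Function.Embedding.coeFn_mk]
  rw [Finset.sum_range_succ', Finset.sum_range_succ', Finset.sum_eq_zero]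
  · rw [zero_add, zero_add, pow_zero, Nat.div_one, pow_one, pow_succ, Nat.mul_div_cancel _ hp.pos]
    ring
  · intro i _
    rw [hf (i + 1 + 1) (by omega), zero_mul]

theorem conv_one (f g : ArithmeticFunction ℝ) : (f * g) 1 = f 1 * g 1 := by
  rw [ArithmeticFunction.mul_apply]
  simp

/-- the function `μ * μ` -/
noncomputable def m2 : ArithmeticFunction ℝ := mu * mu

theorem m2_one : m2 1 = 1 := by
  unfold m2
  rw [conv_one, mu_mul.1]
  norm_num

theorem m2_p {p : ℕ} (hp : p.Prime) : m2 p = -2 := by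
  have h := conv_pow mu mu hp (mu_pow hp) 0
  rw [zero_add, pow_one, pow_zero, mu_mul.1, mu_prime hp] at h
  unfold m2
  rw [h]
  norm_num

theorem m2_p2 {p : ℕ} (hp : p.Prime) : m2 (p ^ 2) = 1 := by
  have h := conv_pow mu mu hp (mu_pow hp) 1
  rw [show 1 + 1 = 2 from rfl, pow_one, mu_mul.1, mu_prime hp, mu_pow hp 2 le_rfl] at h
  unfold m2
  rw [h]
  norm_num

theorem m2_pow {p : ℕ} (hp : p.Prime) (k : ℕ) : m2 (p ^ (k + 3)) = 0 := by
  have h := conv_pow mu mu hp (mu_pow hp) (k + 2)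
  rw [mu_pow hp (k + 2) (by omega), mu_pow hp (k + 2 + 1) (by omega)] at h
  unfold m2
  rw [show k + 3 = k + 2 + 1 from rfl, h]
  norm_num

/-- the function `h` -/
noncomputable def hf : ArithmeticFunction ℝ := bf * m2

theorem hf_mul : IsMultiplicative hf := bf_mul.mul (mu_mul.mul mu_mul)

theorem hf_p {p : ℕ} (hp : p.Prime) : hf p = bf p - 2 := by
  have h := conv_pow bf m2 hp (bf_pow hp) 0
  rw [zero_add, pow_one, pow_zero, bf_mul.1, m2_one, m2_p hp] at h
  unfold hf
  rw [h]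
  ring

theorem hf_p2 {p : ℕ} (hp : p.Prime) : hf (p ^ 2) = 1 - 2 * bf p := by
  have h := conv_pow bf m2 hp (bf_pow hp) 1
  rw [show 1 + 1 = 2 from rfl, pow_one, bf_mul.1, m2_p2 hp, m2_p hp] at h
  unfold hf
  rw [h]
  ring

theorem hf_p3 {p : ℕ} (hp : p.Prime) : hf (p ^ 3) = bf p := by
  have h := conv_pow bf m2 hp (bf_pow hp) 2
  rw [show 2 + 1 = 3 from rfl, bf_mul.1, m2_p2 hp, m2_pow hp 0] at h
  unfold hf
  rw [h]
  ring

theorem hf_pow {p : ℕ} (hp : p.Prime) (k : ℕ) : hf (p ^ (k + 4)) = 0 := by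
  have h := conv_pow bf m2 hp (bf_pow hp) (k + 3)
  rw [m2_pow hp k, m2_pow hp (k + 1)] at h
  unfold hf
  rw [show k + 4 = k + 3 + 1 from rfl, h]
  ring

theorem bf_eq : bf = hf * ((zeta : ArithmeticFunction ℝ) * (zeta : ArithmeticFunction ℝ)) := by
  have h : (zeta : ArithmeticFunction ℝ) * mu = 1 := by
    unfold mu
    exact coe_zeta_mul_coe_moebius
  unfold hf m2
  calc bf = bf * (((zeta : ArithmeticFunction ℝ) * mu) * ((zeta : ArithmeticFunction ℝ) * mu)) := by
        rw [h, mul_one, mul_one]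
    _ = _ := by ring

theorem tau_apply (n : ℕ) (hn : 1 ≤ n) :
    ((zeta : ArithmeticFunction ℝ) * (zeta : ArithmeticFunction ℝ)) n = (n.divisors.card : ℝ) := by
  rw [ArithmeticFunction.coe_zeta_mul_apply, Finset.sum_congr rfl (g := fun _ => (1 : ℝ))]
  · rw [Finset.sum_const, nsmul_eq_mul, mul_one]
  · intro d hd
    rw [natCoe_apply, zeta_apply, if_neg (Nat.pos_of_mem_divisors hd).ne']
    norm_num

/-- the function `h n / n` -/
noncomputable def ff (n : ℕ) : ℝ := hf n / n

theorem ff_one : ff 1 = 1 := by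
  unfold ff
  rw [hf_mul.1]
  norm_num

theorem ff_mul {m n : ℕ} (h : Nat.Coprime m n) : ff (m * n) = ff m * ff n := by
  unfold ff
  rw [hf_mul.2 h]
  push_cast
  rw [mul_div_mul_comm]

theorem ff_big {p : ℕ} (hp : p.Prime) (e : ℕ) (he : e ∉ range 4) : ff (p ^ e) = 0 := by
  rw [mem_range, not_lt] at he
  obtain ⟨k, rfl⟩ := Nat.exists_eq_add_of_le he
  unfold ff
  rw [add_comm 4 k, hf_pow hp k, zero_div]

theorem sum4 (F : ℕ → ℝ) : ∑ e ∈ range 4, F e = F 0 + F 1 + F 2 + F 3 := by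
  simp [Finset.sum_range_succ]

theorem ff_tsum {p : ℕ} (hp : p.Prime) :
    ∑' e, ff (p ^ e) = (1 - 1 / (p : ℝ)) ^ 2 * (1 + bq p / p) := by
  have hp0 : (p : ℝ) ≠ 0 := by exact_mod_cast hp.pos.ne'
  rw [tsum_eq_sum (fun e he => ff_big hp e he), sum4, pow_zero, ff_one, pow_one]
  unfold ff
  rw [hf_p hp, hf_p2 hp, hf_p3 hp, bf_apply]
  push_cast
  field_simp
  ring

theorem abs_tsum {p : ℕ} (hp : p.Prime) : ∑' e, |ff (p ^ e)| ≤ 1 + 26 / (p : ℝ) ^ 2 := by
  have hp0 : (0 : ℝ) < p := by exact_mod_cast hp.pos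
  have hp1 : (1 : ℝ) ≤ p := by exact_mod_cast hp.one_lt.le
  obtain ⟨h1, h2, h3⟩ := bf_prime hp
  rw [tsum_eq_sum (fun e he => by rw [ff_big hp e he, abs_zero]), sum4, pow_zero, ff_one, pow_one]
  unfold ff
  rw [hf_p hp, hf_p2 hp, hf_p3 hp]
  push_cast
  rw [abs_one, abs_div, abs_div, abs_div, abs_of_pos hp0, abs_of_pos (pow_pos hp0 2),
    abs_of_pos (pow_pos hp0 3)]
  have e1 : |bf p - 2| / p ≤ 10 / (p : ℝ) ^ 2 := by
    rw [div_le_div_iff₀ hp0 (by positivity)]
    rw [le_div_iff₀ hp0] at h3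
    nlinarith
  have e2 : |1 - 2 * bf p| / (p : ℝ) ^ 2 ≤ 8 / (p : ℝ) ^ 2 := by
    refine div_le_div_of_nonneg_right ?_ (by positivity)
    rw [abs_le]
    constructor <;> linarith
  have e3 : |bf p| / (p : ℝ) ^ 3 ≤ 8 / (p : ℝ) ^ 2 := by
    rw [abs_of_nonneg h1, div_le_div_iff₀ (by positivity) (by positivity)]
    have : (p : ℝ) ^ 2 ≤ (p : ℝ) ^ 3 := pow_le_pow_right₀ hp1 (by norm_num)
    nlinarith [pow_pos hp0 2, pow_pos hp0 3]
  have e4 : (10 : ℝ) / (p : ℝ) ^ 2 + 8 / (p : ℝ) ^ 2 + 8 / (p : ℝ) ^ 2 = 26 / (p : ℝ) ^ 2 := by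
    ring
  linarith

theorem ff_summable : Summable (fun n : ℕ => |ff n|) := by
  have hsq : Summable (fun n : ℕ => 1 / (n : ℝ) ^ 2) := Real.summable_one_div_nat_pow.2 (by norm_num)
  refine summable_of_sum_range_le (c := Real.exp (26 * ∑' n : ℕ, 1 / (n : ℝ) ^ 2))
    (fun n => abs_nonneg _) fun N => ?_
  have hmul : ∀ {m n : ℕ}, Nat.Coprime m n → |ff (m * n)| = |ff m| * |ff n| := by
    intro m n h
    rw [ff_mul h, abs_mul]
  have hs : ∀ {p : ℕ}, p.Prime → Summable (fun n : ℕ => ‖|ff (p ^ n)|‖) := by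
    intro p hp
    refine summable_of_ne_finset_zero (s := range 4) fun e he => ?_
    rw [ff_big hp e he]
    simp
  have hE := (EulerProduct.summable_and_hasSum_smoothNumbers_prod_primesBelow_tsum
    (f := fun n : ℕ => |ff n|) (by rw [ff_one]; simp) hmul hs N).2
  have h1 : ∑ n ∈ range N, |ff n| ≤ ∏ p ∈ N.primesBelow, ∑' e, |ff (p ^ e)| := by
    have h2 : ∑ n ∈ range N, |ff n| =
        ∑ n ∈ (range N).subtype (fun m => m ∈ N.smoothNumbers), |ff (n : ℕ)| := by
      rw [Finset.sum_subtype_eq_sum_filter (f := fun n : ℕ => |ff n|), Finset.sum_filter]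
      refine Finset.sum_congr rfl fun n hn => ?_
      by_cases h0 : n = 0
      · rw [h0]
        have : ff 0 = 0 := by
          unfold ff
          simp
        rw [this, abs_zero, ite_self]
      · rw [if_pos (Nat.mem_smoothNumbers_of_lt (Nat.pos_of_ne_zero h0) (mem_range.1 hn))]
    rw [h2]
    exact sum_le_hasSum _ (fun _ _ => abs_nonneg _) hE
  refine h1.trans ?_
  calc ∏ p ∈ N.primesBelow, ∑' e, |ff (p ^ e)|
      ≤ ∏ p ∈ N.primesBelow, Real.exp (26 * (1 / (p : ℝ) ^ 2)) := by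
        refine Finset.prod_le_prod (fun p _ => tsum_nonneg fun e => abs_nonneg _) fun p hp => ?_
        have hp' := Nat.prime_of_mem_primesBelow hp
        refine (abs_tsum hp').trans ?_
        have := Real.add_one_le_exp (26 * (1 / (p : ℝ) ^ 2))
        have e : (26 : ℝ) / (p : ℝ) ^ 2 = 26 * (1 / (p : ℝ) ^ 2) := by ring
        linarith
    _ = Real.exp (26 * ∑ p ∈ N.primesBelow, 1 / (p : ℝ) ^ 2) := by
        rw [← Real.exp_sum, Finset.mul_sum]
    _ ≤ _ := by
        refine Real.exp_le_exp.2 (mul_le_mul_of_nonneg_left ?_ (by norm_num))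
        exact hsq.sum_le_tsum _ (fun _ _ => by positivity)

theorem gHCV : G_HCV := by
  refine ⟨hf, ?_, ?_, ?_⟩
  · intro q hq
    have h : bf q = (hf * ((zeta : ArithmeticFunction ℝ) * (zeta : ArithmeticFunction ℝ))) q := by
      rw [← bf_eq]
    rw [← bf_apply, h, ArithmeticFunction.mul_apply,
      Nat.sum_divisorsAntidiagonal (fun a b => hf a *
        ((zeta : ArithmeticFunction ℝ) * (zeta : ArithmeticFunction ℝ)) b)]
    refine Finset.sum_congr rfl fun d hd => ?_
    rw [tau_apply]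
    exact Nat.div_pos (Nat.divisor_le hd) (Nat.pos_of_mem_divisors hd)
  · refine ff_summable.congr fun n => ?_
    unfold ff
    rw [abs_div, Nat.abs_cast]
  · have hE := EulerProduct.eulerProduct (f := ff) ff_one (fun h => ff_mul h) (by
      simpa only [Real.norm_eq_abs] using ff_summable) (by
      unfold ff
      simp)
    refine hE.congr fun n => ?_
    refine Finset.prod_congr ?_ fun p hp => ?_
    · ext p
      simp [Nat.primesBelow]
    · exact ff_tsum (Finset.mem_filter.1 hp).2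

end Pool.Agent.Helper88.TB
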